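import Pool.Agent.MWGX.StmtsA

/-!
# MWGX, row KZV: `β` keeps `KZ` and `Az`
-/

set_option autoImplicit false

namespace Pool.Agent.MWGX.H94

open Pool.Agent.Helper14_MV Pool.Agent.Helper2_MV
open Pool.Agent.MWK (pre)
open Pool.Agent.MWF (gaml)
open Pool.Agent.MWGN (nn)
open Pool.Agent.MWGQ (pw Gn E0 A0 P0)
open Pool.Agent.MWGR (X It Kaba F1 Dm Ec Es Ea Al0 Rh FE)

/-- **KZV**: `β` keeps `KZ` and `Az`. -/
theorem kzv (h1 : OxvStmt) (h2 : MWGQ.TlrStmt) : KzvStmt := by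
  intro n β hG hE hP w w' hr k
  have ox : OX w w' := (h1 n β hG hE w w' hr).1
  have hb : nn w' 2 4 = 1 :=
    (h2 n β hG hE hP w w' hr 2 4 5 k.s5 k.b2 k.z2 k.z5 k.b5).2.2 3 k.s3 k.b3 k.z3 k.bz
  have ha : nn w' 1 4 ≠ 1 := by
    intro h
    exact k.az ((h2 n β hG hE hP w' w hr.symm 1 4 5 ((ox.c1 5).1 k.s5) ((ox.c2 1).1 k.a2)
      ((ox.c2 4).1 k.z2) ((ox.n1 5 k.s5 4 (by norm_num)).1 k.z5)
      ((ox.nc 5 k.s5 1 (by norm_num)).1 k.a5)).2.2 3 ((ox.c1 3).1 k.s3)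
      ((ox.n1 3 k.s3 1 (by norm_num)).1 k.a3) ((ox.n0 3 k.s3 4 (by norm_num)).1 k.z3) h)
  refine ⟨ox.kz k ha hb, fun hA hz => ?_⟩
  exact (h2 n β hG hE hP w w' hr 1 4 5 k.s5 k.a2 k.z2 k.z5 k.a5).1 hA hz

end Pool.Agent.MWGX.H94
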